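import Mathlib

/-!
Every countable group acts faithfully by automorphisms on a group generated by four elements
and soluble of derived length at most four.

Construction.  Let `G` be a countable group and let `r : ℤ → G` be onto.  Put
`Y = (ℤ → ℤ) × G`.  The group `S` acts on `Y × ZMod 3` and is generated by

* `T (w, h) = (shift w, r (w 0)⁻¹ * h)`,
* `B 0 (w, h) = (w with w 0 replaced by w 0 + 1, h)`,
* the sign change of the `ZMod 3` coordinate over the points with `w 0 = 0`,
* the translation by `1` of the `ZMod 3` coordinate over the points `(w, 1)` with `w i = 0`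
  for all `i ≥ 0`.

The permutations `T` and `B 0` of `Y` generate a metabelian group, and the permutations of a
three element set form a metabelian group, so `S` has derived length at most four.
Right multiplications of `G` on `Y` normalise `S`, and this gives the faithful action.
-/

namespace Pool.Agent.Results.MP_7909d8_al.CountableAct

open Function
open scoped commutatorElement

universe u

section base

variable {G : Type u} [Group G]

/-- The twisted shift. -/
def T (r : ℤ → G) : Equiv.Perm ((ℤ → ℤ) × G) where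
  toFun y := (fun i => y.1 (i + 1), (r (y.1 0))⁻¹ * y.2)
  invFun y := (fun i => y.1 (i - 1), r (y.1 (-1)) * y.2)
  left_inv y := by
    ext <;> simp
  right_inv y := by
    ext <;> simp

/-- Increase of one coordinate. -/
def B (G : Type u) (m : ℤ) : Equiv.Perm ((ℤ → ℤ) × G) where
  toFun y := (update y.1 m (y.1 m + 1), y.2)
  invFun y := (update y.1 m (y.1 m - 1), y.2)
  left_inv y := by
    ext <;> simp
  right_inv y := by
    ext <;> simp

/-- Right multiplication. -/
def ρ (G : Type u) [Group G] : G →* Equiv.Perm ((ℤ → ℤ) × G) where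
  toFun g :=
    { toFun := fun y => (y.1, y.2 * g⁻¹)
      invFun := fun y => (y.1, y.2 * g)
      left_inv := fun y => by simp
      right_inv := fun y => by simp }
  map_one' := by ext y <;> simp
  map_mul' a b := by ext y <;> simp [mul_assoc]

omit [Group G] in
theorem B_comm (m n : ℤ) : B G m * B G n = B G n * B G m := by
  rcases eq_or_ne m n with rfl | h
  · rfl
  · ext y i
    · simp only [B, Equiv.Perm.mul_apply, Equiv.coe_fn_mk, Function.update_apply]
      split_ifs <;> simp_all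
    · rfl

theorem T_B (r : ℤ → G) (n : ℕ) : T r * B G ((n : ℤ) + 1) = B G n * T r := by
  ext y i
  · simp only [B, T, Equiv.Perm.mul_apply, Equiv.coe_fn_mk, Function.update_apply]
    by_cases h : i = n
    · subst h; simp
    · have : ¬ (i + 1 = (n : ℤ) + 1) := by omega
      simp [h, this]
  · have : ¬ ((0 : ℤ) = (n : ℤ) + 1) := by omega
    simp [B, T, Equiv.Perm.mul_apply, Function.update_apply, this]

theorem conj_B (r : ℤ → G) (n : ℕ) : (T r) ^ n * B G n = B G 0 * (T r) ^ n := by
  induction n with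
  | zero => simp
  | succ k ih =>
    push_cast
    rw [pow_succ, mul_assoc, T_B, ← mul_assoc, ih, mul_assoc, ← pow_succ]

/-- The conjugates of `B 0` by powers of `T`. -/
def C (r : ℤ → G) (i : ℤ) : Equiv.Perm ((ℤ → ℤ) × G) := (T r) ^ (-i) * B G 0 * (T r) ^ i

theorem C_nat (r : ℤ → G) (n : ℕ) : C r n = B G n := by
  have := conj_B r n
  rw [C, mul_assoc, zpow_natCast, ← this, ← mul_assoc, ← zpow_natCast, ← zpow_add]
  simp

theorem C_conj (r : ℤ → G) (i k : ℤ) : (T r) ^ (-k) * C r i * (T r) ^ k = C r (i + k) := by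
  simp only [C]
  rw [show -(i + k) = -k + -i by ring, zpow_add, zpow_add]
  group

theorem C_comm_aux (r : ℤ → G) (i : ℤ) (n : ℕ) : C r i * C r (i + n) = C r (i + n) * C r i := by
  have h0 : C r i = (T r) ^ (-i) * C r 0 * (T r) ^ i := by rw [C_conj]; simp
  have h1 : C r (i + n) = (T r) ^ (-i) * C r n * (T r) ^ i := by rw [C_conj, add_comm]
  have h2 : C r 0 = B G 0 := by simp [C]
  rw [h0, h1, h2, C_nat]
  have h3 := B_comm (G := G) 0 n
  calc T r ^ (-i) * B G 0 * T r ^ i * (T r ^ (-i) * B G n * T r ^ i)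
      = T r ^ (-i) * (B G 0 * B G n) * T r ^ i := by group
    _ = T r ^ (-i) * (B G n * B G 0) * T r ^ i := by rw [h3]
    _ = _ := by group

theorem C_comm (r : ℤ → G) (i j : ℤ) : C r i * C r j = C r j * C r i := by
  rcases le_total i j with h | h
  · obtain ⟨n, hn⟩ := Int.le.dest h
    rw [← hn]; exact C_comm_aux r i n
  · obtain ⟨n, hn⟩ := Int.le.dest h
    rw [← hn]; exact (C_comm_aux r j n).symm

/-- The abelian subgroup generated by the conjugates of `B 0`. -/
def A (r : ℤ → G) : Subgroup (Equiv.Perm ((ℤ → ℤ) × G)) := Subgroup.closure (Set.range (C r))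

theorem A_comm (r : ℤ → G) : ⁅A r, A r⁆ = ⊥ := by
  rw [Subgroup.commutator_eq_bot_iff_le_centralizer]
  refine (Subgroup.closure_le _).2 ?_
  rintro _ ⟨i, rfl⟩
  rw [A, Subgroup.centralizer_closure]
  rw [SetLike.mem_coe, Subgroup.mem_centralizer_iff]
  rintro _ ⟨j, rfl⟩
  exact C_comm r j i

theorem A_conj (r : ℤ → G) (k : ℤ) {a : Equiv.Perm ((ℤ → ℤ) × G)} (ha : a ∈ A r) :
    (T r) ^ k * a * ((T r) ^ k)⁻¹ ∈ A r := by
  have : A r ≤ (A r).comap (MulAut.conj ((T r) ^ k)).toMonoidHom := by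
    refine (Subgroup.closure_le _).2 ?_
    rintro _ ⟨i, rfl⟩
    have h := C_conj r i (-k)
    simp only [neg_neg] at h
    show (MulAut.conj ((T r) ^ k)) (C r i) ∈ A r
    rw [MulAut.conj_apply, ← zpow_neg, h]
    exact Subgroup.subset_closure ⟨_, rfl⟩
  exact this ha

/-- The group generated by `T` and `B 0`. -/
def Q (r : ℤ → G) : Subgroup (Equiv.Perm ((ℤ → ℤ) × G)) := Subgroup.closure {T r, B G 0}

theorem mem_Q (r : ℤ → G) {p : Equiv.Perm ((ℤ → ℤ) × G)} (hp : p ∈ Q r) :
    ∃ a ∈ A r, ∃ k : ℤ, p = a * (T r) ^ k := by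
  induction hp using Subgroup.closure_induction with
  | mem x hx =>
    rcases hx with rfl | rfl
    · exact ⟨1, one_mem _, 1, by simp⟩
    · exact ⟨B G 0, Subgroup.subset_closure ⟨0, by simp [C]⟩, 0, by simp⟩
  | one => exact ⟨1, one_mem _, 0, by simp⟩
  | mul x y _ _ hx hy =>
    obtain ⟨a, ha, k, rfl⟩ := hx
    obtain ⟨b, hb, l, rfl⟩ := hy
    refine ⟨a * ((T r) ^ k * b * ((T r) ^ k)⁻¹), mul_mem ha (A_conj r k hb), k + l, ?_⟩
    rw [zpow_add]; group
  | inv x _ hx =>
    obtain ⟨a, ha, k, rfl⟩ := hx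
    refine ⟨(T r) ^ (-k) * a⁻¹ * ((T r) ^ (-k))⁻¹, A_conj r (-k) (inv_mem ha), -k, ?_⟩
    group

theorem Q_comm (r : ℤ → G) : ⁅Q r, Q r⁆ ≤ A r := by
  rw [Subgroup.commutator_le]
  intro p hp q hq
  obtain ⟨a, ha, k, rfl⟩ := mem_Q r hp
  obtain ⟨b, hb, l, rfl⟩ := mem_Q r hq
  have h1 := A_conj r k hb
  have h2 := A_conj r l (inv_mem ha)
  have : ⁅a * (T r) ^ k, b * (T r) ^ l⁆ =
      a * ((T r) ^ k * b * ((T r) ^ k)⁻¹) * ((T r) ^ l * a⁻¹ * ((T r) ^ l)⁻¹) * b⁻¹ := by
    rw [commutatorElement_def]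
    have h3 : (T r) ^ k * ((T r) ^ l) = (T r) ^ l * (T r) ^ k := by
      rw [← zpow_add, ← zpow_add, add_comm]
    have h4 : (T r) ^ l * ((T r) ^ k)⁻¹ = ((T r) ^ k)⁻¹ * (T r) ^ l := by
      rw [eq_inv_mul_iff_mul_eq, ← mul_assoc, h3]; group
    calc a * (T r) ^ k * (b * (T r) ^ l) * (a * (T r) ^ k)⁻¹ * (b * (T r) ^ l)⁻¹
        = a * (T r) ^ k * b * ((T r) ^ l * ((T r) ^ k)⁻¹) * a⁻¹ * ((T r) ^ l)⁻¹ * b⁻¹ := by group
      _ = _ := by rw [h4]; group
  rw [this]
  exact mul_mem (mul_mem (mul_mem ha h1) h2) (inv_mem hb)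

end base

section wreath

/-- The permutation group `Equiv.Perm Y` acts on functions on `Y`. -/
def act (Y : Type u) (P : Type) [Group P] : Equiv.Perm Y →* MulAut (Y → P) where
  toFun q :=
    { toFun := fun F y => F (q⁻¹ y)
      invFun := fun F y => F (q y)
      left_inv := fun F => by ext; simp
      right_inv := fun F => by ext; simp
      map_mul' := fun F F' => rfl }
  map_one' := by ext; rfl
  map_mul' a b := by ext; simp

theorem perm_three (x y : Equiv.Perm (ZMod 3)) (hx : Equiv.Perm.sign x = 1)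
    (hy : Equiv.Perm.sign y = 1) : x * y = y * x := by
  revert x y
  decide

theorem metab (Y : Type u) :
    ⁅⁅(⊤ : Subgroup (Y → Equiv.Perm (ZMod 3))), (⊤ : Subgroup (Y → Equiv.Perm (ZMod 3)))⁆,
      ⁅(⊤ : Subgroup (Y → Equiv.Perm (ZMod 3))), (⊤ : Subgroup (Y → Equiv.Perm (ZMod 3)))⁆⁆
      = ⊥ := by
  have key : ⁅(⊤ : Subgroup (Y → Equiv.Perm (ZMod 3))),
      (⊤ : Subgroup (Y → Equiv.Perm (ZMod 3)))⁆ ≤
      ((⊤ : Subgroup (Y → Equiv.Perm (ZMod 3)))) ⊓
      { carrier := {F | ∀ y, Equiv.Perm.sign (F y) = 1}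
        mul_mem' := fun {a b} ha hb y => by simp [ha y, hb y]
        one_mem' := fun y => by simp
        inv_mem' := fun {a} ha y => by simp [ha y] } := by
    rw [Subgroup.commutator_le]
    intro a _ b _
    refine ⟨trivial, fun y => ?_⟩
    have h : Equiv.Perm.sign (a y) * Equiv.Perm.sign (b y) * (Equiv.Perm.sign (a y))⁻¹ *
        (Equiv.Perm.sign (b y))⁻¹ = 1 := by
      rw [mul_comm (Equiv.Perm.sign (a y)) (Equiv.Perm.sign (b y))]; group
    rw [commutatorElement_def, Pi.mul_apply, Pi.mul_apply, Pi.mul_apply, Pi.inv_apply,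
      Pi.inv_apply, Equiv.Perm.sign_mul, Equiv.Perm.sign_mul, Equiv.Perm.sign_mul,
      Equiv.Perm.sign_inv, Equiv.Perm.sign_inv]
    simpa using h
  rw [Subgroup.commutator_eq_bot_iff_le_centralizer]
  intro a ha
  rw [Subgroup.mem_centralizer_iff]
  intro b hb
  ext1 y
  exact perm_three _ _ ((key hb).2 y) ((key ha).2 y)

end wreath

section main

variable {G : Type u} [Group G]

/-- The ambient group, an unrestricted wreath product. -/
abbrev W (G : Type u) : Type u :=
  (((ℤ → ℤ) × G) → Equiv.Perm (ZMod 3)) ⋊[act ((ℤ → ℤ) × G) (Equiv.Perm (ZMod 3))]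
    Equiv.Perm ((ℤ → ℤ) × G)

open Classical in
/-- Sign change over the points with `w 0 = 0`. -/
noncomputable def sgn (G : Type u) : ((ℤ → ℤ) × G) → Equiv.Perm (ZMod 3) :=
  fun y => if y.1 0 = 0 then Equiv.neg (ZMod 3) else 1

/-- The base set. -/
def Y0 (G : Type u) [Group G] : Set ((ℤ → ℤ) × G) := {y | (∀ i, 0 ≤ i → y.1 i = 0) ∧ y.2 = 1}

open Classical in
/-- Translation by one over the points of a set. -/
noncomputable def tr (Z : Set ((ℤ → ℤ) × G)) : ((ℤ → ℤ) × G) → Equiv.Perm (ZMod 3) :=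
  fun y => if y ∈ Z then Equiv.addRight 1 else 1

/-- The group `S`. -/
noncomputable def S (r : ℤ → G) : Subgroup (W G) :=
  Subgroup.closure {SemidirectProduct.inr (T r), SemidirectProduct.inr (B G 0),
    SemidirectProduct.inl (sgn G), SemidirectProduct.inl (tr (Y0 G))}

omit [Group G] in
theorem conj_inl (q : Equiv.Perm ((ℤ → ℤ) × G)) (F : ((ℤ → ℤ) × G) → Equiv.Perm (ZMod 3)) :
    (SemidirectProduct.inr q : W G) * SemidirectProduct.inl F * (SemidirectProduct.inr q)⁻¹
      = SemidirectProduct.inl (fun y => F (q⁻¹ y)) := by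
  rw [← map_inv, ← SemidirectProduct.inl_aut]
  rfl

theorem fib : (Equiv.neg (ZMod 3) : Equiv.Perm (ZMod 3)) * Equiv.addRight 1 *
    (Equiv.neg (ZMod 3))⁻¹ * (Equiv.addRight 1)⁻¹ = Equiv.addRight 1 := by
  decide

theorem key (r : ℤ → G) (g : G) (x : ℤ) (hx : r x = g⁻¹) :
    (SemidirectProduct.inl (fun y => tr (Y0 G) ((ρ G g)⁻¹ y)) : W G) ∈ S r := by
  set q : Equiv.Perm ((ℤ → ℤ) × G) := (B G 0) ^ (-x) * (T r)⁻¹ with hq
  have hqS : (SemidirectProduct.inr q : W G) ∈ S r := by
    rw [hq, map_mul, map_zpow, map_inv]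
    refine mul_mem (zpow_mem (Subgroup.subset_closure (by simp)) _)
      (inv_mem (Subgroup.subset_closure (by simp)))
  have ha : (SemidirectProduct.inl (fun y => tr (Y0 G) (q⁻¹ y)) : W G) ∈ S r := by
    rw [← conj_inl]
    exact mul_mem (mul_mem hqS (Subgroup.subset_closure (by simp))) (inv_mem hqS)
  have hs : (SemidirectProduct.inl (sgn G) : W G) ∈ S r := Subgroup.subset_closure (by simp)
  have hB : ∀ (n : ℤ) (y : (ℤ → ℤ) × G), ((B G 0) ^ n) y = (update y.1 0 (y.1 0 + n), y.2) := by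
    intro n
    induction n using Int.induction_on with
    | zero => intro y; simp
    | succ n ih =>
      intro y
      rw [zpow_add, zpow_one, Equiv.Perm.mul_apply, ih]
      simp [B, add_assoc, add_comm]
    | pred n ih =>
      intro y
      rw [zpow_sub, zpow_one, Equiv.Perm.mul_apply, ih]
      have : (B G 0)⁻¹ y = (update y.1 0 (y.1 0 - 1), y.2) := rfl
      rw [this]
      simp
      ring_nf
  have hmem : ∀ y : (ℤ → ℤ) × G, ((ρ G g)⁻¹ y ∈ Y0 G ↔ y.1 0 = 0 ∧ q⁻¹ y ∈ Y0 G) := by
    intro y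
    have h1 : (ρ G g)⁻¹ y = (y.1, y.2 * g) := rfl
    have h2 : q⁻¹ y = T r (((B G 0) ^ x) y) := by
      rw [hq, mul_inv_rev, inv_inv, ← zpow_neg, neg_neg]; rfl
    rw [h1, h2, hB]
    constructor
    · rintro ⟨h3, h4⟩
      have h5 : y.1 0 = 0 := h3 0 le_rfl
      refine ⟨h5, ?_, ?_⟩
      · intro i hi
        have : ¬ (i + 1 = 0) := by omega
        simp only [T, Equiv.coe_fn_mk, Function.update_apply, this, if_false]
        exact h3 _ (by omega)
      · simp only [T, Equiv.coe_fn_mk, Function.update_self, h5, zero_add, hx, inv_inv]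
        have : y.2 = g⁻¹ := eq_inv_of_mul_eq_one_left h4
        simp [this]
    · rintro ⟨h5, h3, h4⟩
      refine ⟨?_, ?_⟩
      · intro i hi
        rcases eq_or_lt_of_le hi with rfl | hi
        · exact h5
        · have h6 := h3 (i - 1) (by omega)
          have : ¬ (i = 0) := by omega
          simpa [T, Function.update_apply, this] using h6
      · simp only [T, Equiv.coe_fn_mk, Function.update_self, h5, zero_add, hx, inv_inv] at h4
        have : y.2 = g⁻¹ := eq_inv_of_mul_eq_one_right h4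
        simp [this]
  have hfin : (SemidirectProduct.inl (fun y => tr (Y0 G) ((ρ G g)⁻¹ y)) : W G) =
      SemidirectProduct.inl (sgn G) * SemidirectProduct.inl (fun y => tr (Y0 G) (q⁻¹ y)) *
        (SemidirectProduct.inl (sgn G))⁻¹ *
        (SemidirectProduct.inl (fun y => tr (Y0 G) (q⁻¹ y)))⁻¹ := by
    rw [← map_mul, ← map_inv SemidirectProduct.inl (sgn G), ← map_mul,
      ← map_inv SemidirectProduct.inl (fun y => tr (Y0 G) (q⁻¹ y)), ← map_mul]
    congr 1
    ext1 y
    simp only [Pi.mul_apply, Pi.inv_apply, tr, sgn]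
    by_cases h1 : y.1 0 = 0
    · by_cases h2 : q⁻¹ y ∈ Y0 G
      · have h3 : (ρ G g)⁻¹ y ∈ Y0 G := (hmem y).2 ⟨h1, h2⟩
        rw [if_pos h1, if_pos h2, if_pos h3]
        exact fib.symm
      · have h3 : ¬ ((ρ G g)⁻¹ y ∈ Y0 G) := fun h => h2 ((hmem y).1 h).2
        rw [if_pos h1, if_neg h2, if_neg h3]
        group
    · have h3 : ¬ ((ρ G g)⁻¹ y ∈ Y0 G) := fun h => h1 ((hmem y).1 h).1
      rw [if_neg h1, if_neg h3]
      group
  rw [hfin]
  exact mul_mem (mul_mem (mul_mem hs ha) (inv_mem hs)) (inv_mem ha)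

theorem conj_le (r : ℤ → G) (hr : Surjective r) (g : G) :
    S r ≤ (S r).comap (MulAut.conj (SemidirectProduct.inr (ρ G g) : W G)).toMonoidHom := by
  refine (Subgroup.closure_le _).2 ?_
  rintro x hx
  show (MulAut.conj (SemidirectProduct.inr (ρ G g) : W G)) x ∈ S r
  rw [MulAut.conj_apply]
  rcases hx with rfl | rfl | rfl | rfl
  · have : ρ G g * T r * (ρ G g)⁻¹ = T r := by
      rw [mul_inv_eq_iff_eq_mul]
      ext y <;> simp [ρ, T, mul_assoc]
    rw [← map_inv, ← map_mul, ← map_mul, this]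
    exact Subgroup.subset_closure (by simp)
  · have : ρ G g * B G 0 * (ρ G g)⁻¹ = B G 0 := by
      rw [mul_inv_eq_iff_eq_mul]
      ext y <;> simp [ρ, B]
    rw [← map_inv, ← map_mul, ← map_mul, this]
    exact Subgroup.subset_closure (by simp)
  · rw [conj_inl]
    have : (fun y => sgn G ((ρ G g)⁻¹ y)) = sgn G := rfl
    rw [this]
    exact Subgroup.subset_closure (by simp)
  · rw [conj_inl]
    obtain ⟨x, hx⟩ := hr g⁻¹
    exact key r g x hx

theorem mem_norm (r : ℤ → G) (hr : Surjective r) (g : G) :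
    (SemidirectProduct.inr (ρ G g) : W G) ∈ Subgroup.normalizer (S r : Set (W G)) := by
  rw [Subgroup.mem_normalizer_iff]
  intro h
  constructor
  · intro hh
    exact conj_le r hr g hh
  · intro hh
    have := conj_le r hr g⁻¹ hh
    have h2 : (MulAut.conj (SemidirectProduct.inr (ρ G g⁻¹) : W G)).toMonoidHom
        (SemidirectProduct.inr (ρ G g) * h * (SemidirectProduct.inr (ρ G g))⁻¹) = h := by
      show (MulAut.conj (SemidirectProduct.inr (ρ G g⁻¹) : W G)) _ = h
      rw [MulAut.conj_apply, map_inv, map_inv]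
      group
    rw [Subgroup.mem_comap, h2] at this
    exact this

/-- The action of `G` on `S`. -/
noncomputable def theHom (r : ℤ → G) (hr : Surjective r) : G →* MulAut (S r) :=
  (S r).normalizerMonoidHom.comp
    (((SemidirectProduct.inr : Equiv.Perm ((ℤ → ℤ) × G) →* W G).comp (ρ G)).codRestrict _
      (mem_norm r hr))

theorem theHom_inj (r : ℤ → G) (hr : Surjective r) : Injective (theHom r hr) := by
  rw [injective_iff_map_eq_one]
  intro g hg
  have h1 : (SemidirectProduct.inl (tr (Y0 G)) : W G) ∈ S r := Subgroup.subset_closure (by simp)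
  have h2 := congrArg (fun f : MulAut (S r) => ((f ⟨_, h1⟩ : S r) : W G)) hg
  have h3 : (SemidirectProduct.inr (ρ G g) : W G) * SemidirectProduct.inl (tr (Y0 G)) *
      (SemidirectProduct.inr (ρ G g))⁻¹ = SemidirectProduct.inl (tr (Y0 G)) := h2
  rw [conj_inl] at h3
  have h4 := SemidirectProduct.inl_injective h3
  have h5 := congrFun h4 ((fun _ => 0), 1)
  have h6 : ((fun _ => 0 : ℤ → ℤ), (1 : G)) ∈ Y0 G := ⟨fun _ _ => rfl, rfl⟩
  have h7 : (ρ G g)⁻¹ ((fun _ => 0 : ℤ → ℤ), (1 : G)) = ((fun _ => 0 : ℤ → ℤ), g) := by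
    show ((fun _ => 0 : ℤ → ℤ), (1 : G) * g) = _
    rw [one_mul]
  rw [h7] at h5
  by_contra hne
  have h8 : ¬ (((fun _ => 0 : ℤ → ℤ), g) ∈ Y0 G) := fun h => hne h.2
  simp only [tr, h6, h8, if_true, if_false] at h5
  have h9 := congrArg (fun p : Equiv.Perm (ZMod 3) => p 0) h5
  simp at h9

theorem derived (r : ℤ → G) : derivedSeries (S r) 4 = ⊥ := by
  have e2 : (derivedSeries (S r) 2).map (S r).subtype = ⁅⁅S r, S r⁆, ⁅S r, S r⁆⁆ := by
    have e0 : (⊤ : Subgroup (S r)).map (S r).subtype = S r := by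
      rw [← MonoidHom.range_eq_map, Subgroup.range_subtype]
    rw [derivedSeries_succ, derivedSeries_succ, derivedSeries_zero, Subgroup.map_commutator,
      Subgroup.map_commutator, e0]
  have e4 : (derivedSeries (S r) 4).map (S r).subtype =
      ⁅⁅(derivedSeries (S r) 2).map (S r).subtype, (derivedSeries (S r) 2).map (S r).subtype⁆,
        ⁅(derivedSeries (S r) 2).map (S r).subtype, (derivedSeries (S r) 2).map (S r).subtype⁆⁆ := by
    rw [derivedSeries_succ, derivedSeries_succ, Subgroup.map_commutator, Subgroup.map_commutator]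
  have hS : (S r).map SemidirectProduct.rightHom ≤ Q r := by
    rw [S, MonoidHom.map_closure, Subgroup.closure_le]
    rintro _ ⟨x, hx, rfl⟩
    rcases hx with rfl | rfl | rfl | rfl
    · exact Subgroup.subset_closure (by simp)
    · exact Subgroup.subset_closure (by simp)
    · simp
    · simp
  have hk : (derivedSeries (S r) 2).map (S r).subtype ≤
      (SemidirectProduct.inl : _ →* W G).range := by
    rw [SemidirectProduct.range_inl_eq_ker_rightHom, ← MonoidHom.comap_bot,
      ← Subgroup.map_le_iff_le_comap, e2, Subgroup.map_commutator, Subgroup.map_commutator,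
      ← A_comm r]
    have h1 := (Subgroup.commutator_mono hS hS).trans (Q_comm r)
    exact Subgroup.commutator_mono h1 h1
  have h4 : (derivedSeries (S r) 4).map (S r).subtype ≤ ⊥ := by
    rw [e4]
    refine (Subgroup.commutator_mono (Subgroup.commutator_mono hk hk)
      (Subgroup.commutator_mono hk hk)).trans ?_
    rw [MonoidHom.range_eq_map, ← Subgroup.map_commutator, ← Subgroup.map_commutator, metab,
      Subgroup.map_bot]
  have h5 := (Subgroup.map_eq_bot_iff _).1 (le_bot_iff.1 h4)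
  rw [Subgroup.ker_subtype] at h5
  exact le_bot_iff.1 h5

end main

/-- Every countable group acts faithfully by automorphisms on a finitely generated soluble group
of derived length at most four. -/
theorem result (G : Type u) [Group G] [Countable G] :
    ∃ (S : Type u) (_ : Group S), Group.FG S ∧ Group.IsSolvable S ∧ derivedSeries S 4 = ⊥ ∧
      ∃ f : G →* MulAut S, Function.Injective f := by
  obtain ⟨r, hr⟩ : ∃ r : ℤ → G, Surjective r := by
    obtain ⟨f, hf⟩ := exists_surjective_nat G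
    exact ⟨fun z => f z.toNat, fun g => by
      obtain ⟨n, hn⟩ := hf g
      exact ⟨n, by simpa using hn⟩⟩
  refine ⟨S r, inferInstance, ?_, ⟨⟨4, derived r⟩⟩, derived r, theHom r hr, theHom_inj r hr⟩
  rw [Group.fg_iff_subgroup_fg, Subgroup.fg_iff]
  exact ⟨_, rfl, by simp⟩

end Pool.Agent.Results.MP_7909d8_al.CountableAct
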